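import Mathlib

set_option autoImplicit false

namespace Pool.Agent.Lib.Gurarii

open Cardinal

/-- the first uncountable well order -/
abbrev W : Type := (Cardinal.aleph 1).ord.ToType

theorem W_mk : #W = Cardinal.aleph 1 := by
  simp

theorem W_bdd (s : ℕ → W) : ∃ b : W, ∀ n, s n < b := by
  by_contra hcon
  push Not at hcon
  have hun : (Set.univ : Set W) ⊆ ⋃ n, Set.Iic (s n) := by
    intro b _
    obtain ⟨n, hn⟩ := hcon b
    exact Set.mem_iUnion.mpr ⟨n, hn⟩
  have hc : ∀ n, (Set.Iic (s n)).Countable := by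
    intro n
    have h1 : #(Set.Iio (s n)) < Cardinal.aleph 1 := by
      have h0 := Cardinal.mk_Iio_lt (s n) (by simp)
      rwa [W_mk] at h0
    have h2 : #(Set.Iio (s n)) ≤ ℵ₀ := by
      rw [← Order.lt_succ_iff]
      have : Order.succ ℵ₀ = Cardinal.aleph 1 := Cardinal.succ_aleph0
      rw [this]
      exact h1
    have h3 : (Set.Iio (s n)).Countable := Cardinal.le_aleph0_iff_set_countable.mp h2
    have h4 : Set.Iic (s n) = insert (s n) (Set.Iio (s n)) := by
      rw [Set.Iio_insert]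
    rw [h4]
    exact h3.insert _
  have h5 : (Set.univ : Set W).Countable := (Set.countable_iUnion hc).mono hun
  have h6 : #W ≤ ℵ₀ := by
    have := Cardinal.le_aleph0_iff_set_countable.mpr h5
    rwa [Cardinal.mk_univ] at this
  rw [W_mk] at h6
  have h7 : ℵ₀ < Cardinal.aleph 1 := Cardinal.aleph0_lt_aleph_one
  exact absurd h6 (not_le.mpr h7)

theorem exists_indep {J : Type} (hJ : #J ≤ Cardinal.continuum) :
    ∃ u : ℕ → J → ℚ, ∀ (F : Finset J) (q : J → ℚ), ∃ n, ∀ j ∈ F, u n j = q j := by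
  classical
  have h1 : #J ≤ #(ℕ → Bool) := by
    refine hJ.trans (le_of_eq ?_)
    simp
  obtain ⟨ι⟩ := (Cardinal.le_def _ _).mp h1
  let D := Σ m : ℕ, ((Fin m → Bool) → ℚ)
  have : ∀ m : ℕ, Countable ((Fin m → Bool) → ℚ) := fun m => inferInstance
  have : Countable D := inferInstance
  have : Nonempty D := ⟨⟨0, fun _ => 0⟩⟩
  obtain ⟨e, he⟩ := exists_surjective_nat D
  let res : ∀ m : ℕ, J → (Fin m → Bool) := fun m j i => ι j i.val
  refine ⟨fun n j => (e n).2 (res (e n).1 j), ?_⟩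
  intro F q
  -- separate
  have hsep : ∃ m : ℕ, ∀ j ∈ F, ∀ j' ∈ F, j ≠ j' → res m j ≠ res m j' := by
    have h2 : ∀ p ∈ F ×ˢ F, ∃ m : ℕ, p.1 ≠ p.2 → ∀ m' ≥ m, res m' p.1 ≠ res m' p.2 := by
      intro p _
      by_cases hp : p.1 = p.2
      · exact ⟨0, fun h => absurd hp h⟩
      · have h3 : ι p.1 ≠ ι p.2 := fun h => hp (ι.injective h)
        obtain ⟨k, hk⟩ := Function.ne_iff.mp h3
        refine ⟨k + 1, fun _ m' hm' h => hk ?_⟩
        exact congrFun h ⟨k, by omega⟩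
    choose! m hm using h2
    refine ⟨(F ×ˢ F).sup m, fun j hj j' hj' hne => ?_⟩
    have hmem : (j, j') ∈ F ×ˢ F := Finset.mem_product.mpr ⟨hj, hj'⟩
    exact hm (j, j') hmem hne _ (Finset.le_sup (f := m) hmem)
  obtain ⟨m, hm⟩ := hsep
  let g : (Fin m → Bool) → ℚ := fun c =>
    if h : ∃ j ∈ F, res m j = c then q h.choose else 0
  obtain ⟨n, hn⟩ := he ⟨m, g⟩
  refine ⟨n, fun j hj => ?_⟩
  have h4 : (e n).2 (res (e n).1 j) = g (res m j) := by
    rw [hn]
  simp only [h4]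
  have hex : ∃ j' ∈ F, res m j' = res m j := ⟨j, hj, rfl⟩
  simp only [g, dif_pos hex]
  congr 1
  by_contra hne
  exact hm _ hex.choose_spec.1 j hj hne hex.choose_spec.2

end Pool.Agent.Lib.Gurarii
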