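import Mathlib
import Pool.Agent.Lib.MP_5544e1_an.Index

set_option autoImplicit false

namespace Pool.Agent.Lib.Gurarii

open Cardinal Filter Topology BoundedContinuousFunction

/-- the space of bounded real sequences -/
abbrev E : Type := ℕ →ᵇ ℝ

/-- linear combinations -/
def lcomb {V : Type*} [AddCommGroup V] [Module ℝ V] {k : ℕ} (x : Fin k → V) (α : Fin k → ℝ) : V :=
  ∑ i, α i • x i

section lcomb

variable {V : Type*} [AddCommGroup V] [Module ℝ V] {k : ℕ}

theorem lcomb_zero (x : Fin k → V) : lcomb x 0 = 0 := by simp [lcomb]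

theorem lcomb_add (x : Fin k → V) (α β : Fin k → ℝ) :
    lcomb x (α + β) = lcomb x α + lcomb x β := by
  simp [lcomb, add_smul, Finset.sum_add_distrib]

theorem lcomb_sub (x : Fin k → V) (α β : Fin k → ℝ) :
    lcomb x (α - β) = lcomb x α - lcomb x β := by
  simp [lcomb, sub_smul, Finset.sum_sub_distrib]

theorem lcomb_smul (x : Fin k → V) (c : ℝ) (α : Fin k → ℝ) :
    lcomb x (c • α) = c • lcomb x α := by
  simp [lcomb, mul_smul, Finset.smul_sum]

theorem lcomb_mem_span (x : Fin k → V) (α : Fin k → ℝ) :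
    lcomb x α ∈ Submodule.span ℝ (Set.range x) :=
  Submodule.sum_mem _ (fun i _ => Submodule.smul_mem _ _ (Submodule.subset_span ⟨i, rfl⟩))

end lcomb

/-- extension problems -/
structure Prob where
  /-- dimension -/
  k : ℕ
  /-- base vectors -/
  x : Fin k → E
  /-- the norm profile -/
  p : C(Fin k → ℝ, ℝ)

/-- validity of an extension problem -/
def Valid (γ : Prob) : Prop :=
  ∃ (T : Type) (_ : NormedAddCommGroup T) (_ : NormedSpace ℝ T) (s : Fin γ.k → T) (t : T),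
    (∀ α, ‖lcomb s α‖ = ‖lcomb γ.x α‖) ∧ ∀ α, γ.p α = ‖lcomb s α + t‖

theorem E_card : #E ≤ Cardinal.continuum := by
  have h : #E ≤ #(ℕ → ℝ) :=
    Cardinal.mk_le_of_injective (f := fun f : E => (f : ℕ → ℝ)) DFunLike.coe_injective
  refine h.trans (le_of_eq ?_)
  rw [Cardinal.mk_arrow]
  simp only [Cardinal.lift_id, Cardinal.mk_real, Cardinal.mk_nat, Cardinal.continuum_power_aleph0]

theorem CC_card (k : ℕ) : #C(Fin k → ℝ, ℝ) ≤ Cardinal.continuum := by
  have h : #C(Fin k → ℝ, ℝ) ≤ #((Fin k → ℚ) → ℝ) := by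
    refine Cardinal.mk_le_of_injective
      (f := fun (f : C(Fin k → ℝ, ℝ)) (a : Fin k → ℚ) => f (fun i => (a i : ℝ))) ?_
    intro f g hfg
    have hd : DenseRange (fun (a : Fin k → ℚ) (i : Fin k) => (a i : ℝ)) :=
      DenseRange.piMap (fun _ => Rat.denseRange_cast)
    have h2 : (f : (Fin k → ℝ) → ℝ) = g := by
      refine hd.equalizer f.continuous g.continuous ?_
      ext a
      exact congrFun hfg a
    exact DFunLike.coe_injective h2
  refine h.trans ?_
  rw [Cardinal.mk_arrow]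
  simp only [Cardinal.lift_id, Cardinal.mk_real]
  calc Cardinal.continuum ^ #(Fin k → ℚ) ≤ Cardinal.continuum ^ ℵ₀ :=
        Cardinal.power_le_power_left Cardinal.continuum_ne_zero Cardinal.mk_le_aleph0
    _ = Cardinal.continuum := by simp

theorem Prob_card : #Prob ≤ Cardinal.continuum := by
  have h1 : #Prob ≤ #(Σ k : ℕ, (Fin k → E) × C(Fin k → ℝ, ℝ)) := by
    refine Cardinal.mk_le_of_injective (f := fun γ : Prob => ⟨γ.k, (γ.x, γ.p)⟩) ?_
    rintro ⟨k, x, p⟩ ⟨k', x', p'⟩ h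
    simp only [Sigma.mk.injEq] at h
    obtain ⟨rfl, h⟩ := h
    simp only [heq_eq_eq, Prod.mk.injEq] at h
    obtain ⟨rfl, rfl⟩ := h
    rfl
  refine h1.trans ?_
  rw [Cardinal.mk_sigma]
  refine (Cardinal.sum_le_sum _ (fun _ => Cardinal.continuum) ?_).trans ?_
  · intro k
    rw [Cardinal.mk_prod, Cardinal.lift_id, Cardinal.lift_id]
    have h2 : #(Fin k → E) ≤ Cardinal.continuum := by
      rw [Cardinal.mk_arrow]
      simp only [Cardinal.lift_id]
      calc #E ^ #(Fin k) ≤ Cardinal.continuum ^ #(Fin k) := Cardinal.power_le_power_right E_card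
        _ ≤ Cardinal.continuum ^ ℵ₀ :=
          Cardinal.power_le_power_left Cardinal.continuum_ne_zero Cardinal.mk_le_aleph0
        _ = Cardinal.continuum := by simp
    calc _ ≤ Cardinal.continuum * Cardinal.continuum := mul_le_mul' h2 (CC_card k)
      _ = Cardinal.continuum := by simp
  · simp

theorem J_card : #(W × Prob) ≤ Cardinal.continuum := by
  rw [Cardinal.mk_prod, Cardinal.lift_id, Cardinal.lift_id, W_mk]
  calc _ ≤ Cardinal.continuum * Cardinal.continuum :=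
        mul_le_mul' Cardinal.aleph_one_le_continuum Prob_card
    _ = Cardinal.continuum := by simp

/-- an independent family of selectors -/
noncomputable def uu : ℕ → W × Prob → ℚ := (exists_indep J_card).choose

theorem uu_spec (F : Finset (W × Prob)) (q : W × Prob → ℚ) : ∃ n, ∀ j ∈ F, uu n j = q j :=
  (exists_indep J_card).choose_spec F q

section Functionals

/-- upper bound for the values of an extension -/
noncomputable def bb (γ : Prob) (θ : E → ℝ) : ℝ := ⨅ α : Fin γ.k → ℝ, (γ.p α - θ (lcomb γ.x α))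

/-- lower bound for the values of an extension -/
noncomputable def aa (γ : Prob) (θ : E → ℝ) : ℝ := ⨆ α : Fin γ.k → ℝ, (-γ.p α - θ (lcomb γ.x α))

/-- truncation -/
noncomputable def clamp (a b q : ℝ) : ℝ := max a (min b q)

/-- profile inequalities -/
theorem Valid.nonneg {γ : Prob} (h : Valid γ) (α : Fin γ.k → ℝ) : 0 ≤ γ.p α := by
  obtain ⟨T, _, _, s, t, -, h2⟩ := h
  rw [h2]; exact norm_nonneg _

theorem Valid.sub_le {γ : Prob} (h : Valid γ) (α β : Fin γ.k → ℝ) :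
    ‖lcomb γ.x α - lcomb γ.x β‖ ≤ γ.p α + γ.p β := by
  obtain ⟨T, _, _, s, t, h1, h2⟩ := h
  rw [h2, h2, ← lcomb_sub, ← h1, lcomb_sub]
  calc ‖lcomb s α - lcomb s β‖ = ‖(lcomb s α + t) - (lcomb s β + t)‖ := by congr 1; abel
    _ ≤ _ := norm_sub_le _ _

theorem Valid.norm_le {γ : Prob} (h : Valid γ) (α : Fin γ.k → ℝ) :
    ‖lcomb γ.x α‖ ≤ γ.p α + γ.p 0 := by
  have := h.sub_le α 0
  rwa [lcomb_zero, sub_zero] at this

/-- contractive functionals on `E` -/
def Contr (θ : E → ℝ) : Prop := (∀ x y, θ (x + y) = θ x + θ y) ∧ (∀ (c : ℝ) x, θ (c • x) = c * θ x) ∧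
  ∀ x, |θ x| ≤ ‖x‖

theorem Contr.sub {θ : E → ℝ} (h : Contr θ) (x y : E) : θ (x - y) = θ x - θ y := by
  have h1 := h.1 (x - y) y
  rw [sub_add_cancel] at h1
  linarith

theorem contr_eval (n : ℕ) : Contr (fun x : E => x n) :=
  ⟨fun _ _ => rfl, fun _ _ => rfl, fun x => x.norm_coe_le_norm n⟩

theorem contr_dual {φ : StrongDual ℝ E} (hφ : ‖φ‖ ≤ 1) : Contr (fun x => φ x) := by
  refine ⟨fun x y => map_add φ x y, fun c x => map_smul φ c x, fun x => ?_⟩
  calc |φ x| ≤ ‖φ‖ * ‖x‖ := φ.le_opNorm x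
    _ ≤ 1 * ‖x‖ := by gcongr
    _ = ‖x‖ := one_mul _

theorem cross {γ : Prob} (h : Valid γ) {θ : E → ℝ} (hθ : Contr θ) (α β : Fin γ.k → ℝ) :
    -γ.p α - θ (lcomb γ.x α) ≤ γ.p β - θ (lcomb γ.x β) := by
  have h1 := h.sub_le β α
  have h2 := hθ.2.2 (lcomb γ.x β - lcomb γ.x α)
  rw [hθ.sub] at h2
  have h3 := (abs_le.mp (h2.trans h1)).2
  linarith

theorem bb_le {γ : Prob} (h : Valid γ) {θ : E → ℝ} (hθ : Contr θ) (β : Fin γ.k → ℝ) :
    bb γ θ ≤ γ.p β - θ (lcomb γ.x β) := by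
  refine ciInf_le ⟨-γ.p 0 - θ (lcomb γ.x 0), ?_⟩ β
  rintro _ ⟨α, rfl⟩
  exact cross h hθ 0 α

theorem le_bb {γ : Prob} {θ : E → ℝ} {c : ℝ}
    (hc : ∀ β : Fin γ.k → ℝ, c ≤ γ.p β - θ (lcomb γ.x β)) : c ≤ bb γ θ :=
  le_ciInf hc

theorem le_aa {γ : Prob} (h : Valid γ) {θ : E → ℝ} (hθ : Contr θ) (β : Fin γ.k → ℝ) :
    -γ.p β - θ (lcomb γ.x β) ≤ aa γ θ := by
  refine le_ciSup (f := fun α => -γ.p α - θ (lcomb γ.x α)) ⟨γ.p 0 - θ (lcomb γ.x 0), ?_⟩ β
  rintro _ ⟨α, rfl⟩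
  exact cross h hθ α 0

theorem aa_le {γ : Prob} {θ : E → ℝ} {c : ℝ}
    (hc : ∀ β : Fin γ.k → ℝ, -γ.p β - θ (lcomb γ.x β) ≤ c) : aa γ θ ≤ c :=
  ciSup_le hc

theorem aa_le_bb {γ : Prob} (h : Valid γ) {θ : E → ℝ} (hθ : Contr θ) : aa γ θ ≤ bb γ θ :=
  aa_le (fun α => le_bb (fun β => cross h hθ α β))

theorem clamp_mem {a b : ℝ} (hab : a ≤ b) (q : ℝ) : a ≤ clamp a b q ∧ clamp a b q ≤ b :=
  ⟨le_max_left _ _, max_le hab (min_le_left _ _)⟩

theorem clamp_close {a b q c ε : ℝ} (ha : a ≤ c + ε) (hb : c - ε ≤ b) (hq : |q - c| ≤ ε) :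
    |clamp a b q - c| ≤ ε := by
  rw [abs_le] at *
  unfold clamp
  constructor
  · have h1 : c - ε ≤ min b q := le_min hb (by linarith)
    have h2 := h1.trans (le_max_right a _)
    linarith
  · have h1 : max a (min b q) ≤ c + ε := max_le ha ((min_le_right _ _).trans (by linarith))
    linarith

theorem ext_abs_le {γ : Prob} (h : Valid γ) {θ : E → ℝ} (hθ : Contr θ) (q : ℝ)
    (α : Fin γ.k → ℝ) : |θ (lcomb γ.x α) + clamp (aa γ θ) (bb γ θ) q| ≤ γ.p α := by
  have h1 := clamp_mem (aa_le_bb h hθ) q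
  have h2 := bb_le h hθ α
  have h3 := le_aa h hθ α
  rw [abs_le]
  constructor <;> linarith [h1.1, h1.2]

open Classical in
/-- the new vector solving an extension problem -/
noncomputable def tv (γ : Prob) (q : ℕ → ℝ) : E :=
  if h : Valid γ then
    BoundedContinuousFunction.ofNormedAddCommGroupDiscrete
      (fun n => clamp (aa γ (fun x => x n)) (bb γ (fun x => x n)) (q n)) (γ.p 0)
      (fun n => by
        have h1 := ext_abs_le h (contr_eval n) (q n) 0
        rw [lcomb_zero] at h1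
        simpa using h1)
  else 0

theorem tv_apply {γ : Prob} (h : Valid γ) (q : ℕ → ℝ) (n : ℕ) :
    tv γ q n = clamp (aa γ (fun x => x n)) (bb γ (fun x => x n)) (q n) := by
  unfold tv
  rw [dif_pos h]
  rfl

theorem tv_norm_le {γ : Prob} (h : Valid γ) (q : ℕ → ℝ) (α : Fin γ.k → ℝ) :
    ‖lcomb γ.x α + tv γ q‖ ≤ γ.p α := by
  rw [BoundedContinuousFunction.norm_le (h.nonneg α)]
  intro n
  have h1 := ext_abs_le h (contr_eval n) (q n) α
  rw [← tv_apply h q n] at h1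
  exact h1

/-- total boundedness of balls in the span -/
theorem exists_net {k : ℕ} (x : Fin k → E) {η : ℝ} (hη : 0 < η) :
    ∃ F : Finset E, (∀ y ∈ F, y ∈ Submodule.span ℝ (Set.range x)) ∧
      ∀ θ θ' : E → ℝ, Contr θ → Contr θ' → (∀ y ∈ F, |θ y - θ' y| < η) →
        ∀ α : Fin k → ℝ, |θ (lcomb x α) - θ' (lcomb x α)| ≤ 3 * η * ‖lcomb x α‖ := by
  classical
  let S := Submodule.span ℝ (Set.range x)
  have : FiniteDimensional ℝ S := FiniteDimensional.span_of_finite ℝ (Set.finite_range _)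
  have : ProperSpace S := FiniteDimensional.proper ℝ S
  have hc : IsCompact (Metric.closedBall (0 : S) 1) := isCompact_closedBall 0 1
  obtain ⟨N, hN2, hN3⟩ := Metric.totallyBounded_iff.mp hc.totallyBounded η hη
  refine ⟨(hN2.image (Subtype.val)).toFinset, ?_, ?_⟩
  · intro y hy
    simp only [Set.Finite.mem_toFinset, Set.mem_image] at hy
    obtain ⟨z, -, rfl⟩ := hy
    exact z.2
  · intro θ θ' hθ hθ' hF α
    set y := lcomb x α with hy
    have hyS : y ∈ S := lcomb_mem_span x α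
    by_cases hy0 : y = 0
    · have h1 := hθ.2.1 0 0
      have h2 := hθ'.2.1 0 0
      rw [zero_smul, zero_mul] at h1 h2
      rw [hy0, h1, h2]
      simp
    · have hny : 0 < ‖y‖ := norm_pos_iff.mpr hy0
      let z : S := ⟨‖y‖⁻¹ • y, S.smul_mem _ hyS⟩
      have hz : z ∈ Metric.closedBall (0 : S) 1 := by
        have h0 : dist (‖y‖⁻¹ • y : E) 0 ≤ 1 := by
          rw [dist_zero_right, norm_smul, norm_inv, norm_norm, inv_mul_cancel₀ hny.ne']
        exact h0
      obtain ⟨w, hwN, hw⟩ := Set.mem_iUnion₂.mp (hN3 hz)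
      have hw' : ‖(z : E) - w‖ < η := by
        have h0 : dist (z : E) (w : E) < η := hw
        rwa [dist_eq_norm] at h0
      have hwF : (w : E) ∈ (hN2.image (Subtype.val)).toFinset := by
        simp only [Set.Finite.mem_toFinset, Set.mem_image]
        exact ⟨w, hwN, rfl⟩
      have h1 := hF _ hwF
      have h2 := hθ.2.2 ((z : E) - w)
      have h3 := hθ'.2.2 ((z : E) - w)
      rw [hθ.sub] at h2
      rw [hθ'.sub] at h3
      have h4 : |θ z - θ' z| ≤ 3 * η := by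
        have e : θ z - θ' z = (θ z - θ w) + (θ w - θ' w) - (θ' z - θ' w) := by ring
        rw [e]
        calc |(θ z - θ w) + (θ w - θ' w) - (θ' z - θ' w)|
            ≤ |(θ z - θ w) + (θ w - θ' w)| + |θ' z - θ' w| := abs_sub _ _
          _ ≤ |θ z - θ w| + |θ w - θ' w| + |θ' z - θ' w| := by gcongr; exact abs_add_le _ _
          _ ≤ η + η + η := by gcongr <;> linarith
          _ = 3 * η := by ring
      have h5 : θ z = ‖y‖⁻¹ * θ y := hθ.2.1 _ _
      have h6 : θ' z = ‖y‖⁻¹ * θ' y := hθ'.2.1 _ _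
      rw [h5, h6, ← mul_sub, abs_mul, abs_of_pos (inv_pos.mpr hny), inv_mul_le_iff₀ hny] at h4
      linarith

theorem key_lemma {γ : Prob} (h : Valid γ) {φ : E → ℝ} (hφ : Contr φ) {r : ℝ} (hr : r < 1)
    (hφr : ∀ x, |φ x| ≤ r * ‖x‖) {c : ℝ} (hc : ∀ α, |φ (lcomb γ.x α) + c| ≤ γ.p α) {ε : ℝ}
    (hε : 0 < ε) :
    ∃ (F : Finset E) (δ : ℝ) (ρ : ℚ), 0 < δ ∧
      (∀ y ∈ F, y ∈ Submodule.span ℝ (Set.range γ.x)) ∧
      ∀ θ : E → ℝ, Contr θ → (∀ y ∈ F, |φ y - θ y| < δ) →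
        |clamp (aa γ θ) (bb γ θ) ρ - c| ≤ ε := by
  have hp0 := h.nonneg 0
  obtain ⟨l, hl0, hl1, hl2⟩ : ∃ l : ℝ, 0 < l ∧ l ≤ 1 ∧ 2 * l * γ.p 0 ≤ ε := by
    refine ⟨min 1 (ε / (2 * (γ.p 0 + 1))), by positivity, min_le_left _ _, ?_⟩
    have h1 : min 1 (ε / (2 * (γ.p 0 + 1))) ≤ ε / (2 * (γ.p 0 + 1)) := min_le_right _ _
    calc 2 * min 1 (ε / (2 * (γ.p 0 + 1))) * γ.p 0
        ≤ 2 * (ε / (2 * (γ.p 0 + 1))) * (γ.p 0 + 1) := by
          have : 0 ≤ min 1 (ε / (2 * (γ.p 0 + 1))) := by positivity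
          gcongr
          linarith
      _ = ε := by field_simp
  have hη : 0 < l * (1 - r) / 3 := by
    have : 0 < 1 - r := by linarith
    positivity
  obtain ⟨F, hF1, hF2⟩ := exists_net γ.x hη
  obtain ⟨ρ, hρ1, hρ2⟩ := exists_rat_btwn (show c - ε < c + ε by linarith)
  refine ⟨F, l * (1 - r) / 3, ρ, hη, hF1, ?_⟩
  intro θ hθ hθF
  have h3 := hF2 φ θ hφ hθ hθF
  have h4 : ∀ α, |φ (lcomb γ.x α) - θ (lcomb γ.x α)| ≤ l * (1 - r) * ‖lcomb γ.x α‖ := by
    intro α
    refine (h3 α).trans (le_of_eq ?_)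
    ring
  have hbφ : c ≤ bb γ φ := le_bb (fun β => by
    have := (abs_le.mp (hc β)).2
    linarith)
  have haφ : aa γ φ ≤ c := aa_le (fun β => by
    have := (abs_le.mp (hc β)).1
    linarith)
  have hbφ' : bb γ φ ≤ γ.p 0 := by
    have h5 := bb_le h hφ 0
    have h6 := hφ.2.1 0 0
    rw [zero_smul, zero_mul] at h6
    rw [lcomb_zero, h6] at h5
    linarith
  have haφ' : -γ.p 0 ≤ aa γ φ := by
    have h5 := le_aa h hφ 0
    have h6 := hφ.2.1 0 0
    rw [zero_smul, zero_mul] at h6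
    rw [lcomb_zero, h6] at h5
    linarith
  -- estimate of the difference
  have hmain : ∀ α, |θ (lcomb γ.x α) - (1 - l) * φ (lcomb γ.x α)| ≤ l * ‖lcomb γ.x α‖ := by
    intro α
    have e : θ (lcomb γ.x α) - (1 - l) * φ (lcomb γ.x α) =
        l * φ (lcomb γ.x α) - (φ (lcomb γ.x α) - θ (lcomb γ.x α)) := by ring
    rw [e]
    calc |l * φ (lcomb γ.x α) - (φ (lcomb γ.x α) - θ (lcomb γ.x α))|
        ≤ |l * φ (lcomb γ.x α)| + |φ (lcomb γ.x α) - θ (lcomb γ.x α)| := abs_sub _ _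
      _ ≤ l * (r * ‖lcomb γ.x α‖) + l * (1 - r) * ‖lcomb γ.x α‖ := by
        rw [abs_mul, abs_of_pos hl0]
        gcongr
        · exact hφr _
        · exact h4 α
      _ = _ := by ring
  have hb : c - ε ≤ bb γ θ := by
    refine le_bb (fun β => ?_)
    have h7 := (abs_le.mp (hmain β)).2
    have h8 := h.norm_le β
    have h9 := bb_le h hφ β
    have h10 : l * ‖lcomb γ.x β‖ ≤ l * (γ.p β + γ.p 0) := by gcongr
    have h11 : (1 - l) * bb γ φ ≤ (1 - l) * (γ.p β - φ (lcomb γ.x β)) := by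
      have : 0 ≤ 1 - l := by linarith
      gcongr
    have h12 : l * bb γ φ ≤ l * γ.p 0 := by gcongr
    nlinarith
  have ha : aa γ θ ≤ c + ε := by
    refine aa_le (fun β => ?_)
    have h7 := (abs_le.mp (hmain β)).1
    have h8 := h.norm_le β
    have h9 := le_aa h hφ β
    have h10 : l * ‖lcomb γ.x β‖ ≤ l * (γ.p β + γ.p 0) := by gcongr
    have h11 : (1 - l) * (-γ.p β - φ (lcomb γ.x β)) ≤ (1 - l) * aa γ φ := by
      have : 0 ≤ 1 - l := by linarith
      gcongr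
    have h12 : l * (-γ.p 0) ≤ l * aa γ φ := by gcongr
    nlinarith
  refine clamp_close ha hb ?_
  rw [abs_le]
  constructor <;> linarith

end Functionals

section Tower

/-- the new vector at stage `β` for the problem `γ` -/
noncomputable def tvec (β : W) (γ : Prob) : E := tv γ (fun n => (uu n (β, γ) : ℝ))

/-- the tower of closed subspaces -/
noncomputable def XX (α : W) : Submodule ℝ E :=
  (Submodule.span ℝ {v : E | ∃ β : W, ∃ _ : β < α, ∃ γ : Prob,
    Valid γ ∧ (∀ i, γ.x i ∈ XX β) ∧ v = tvec β γ}).topologicalClosure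
termination_by α

/-- the generators -/
def GG (α : W) : Set E := {v : E | ∃ β : W, ∃ _ : β < α, ∃ γ : Prob,
    Valid γ ∧ (∀ i, γ.x i ∈ XX β) ∧ v = tvec β γ}

theorem XX_eq (α : W) : XX α = (Submodule.span ℝ (GG α)).topologicalClosure := by
  rw [XX]
  rfl

theorem GG_mono {α α' : W} (h : α ≤ α') : GG α ⊆ GG α' := by
  rintro v ⟨β, hβ, γ, hγ⟩
  exact ⟨β, hβ.trans_le h, γ, hγ⟩

theorem XX_mono {α α' : W} (h : α ≤ α') : XX α ≤ XX α' := by
  rw [XX_eq, XX_eq]
  exact Submodule.topologicalClosure_mono (Submodule.span_mono (GG_mono h))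

theorem GG_sub (α : W) : GG α ⊆ XX α := by
  intro v hv
  rw [XX_eq]
  exact Submodule.le_topologicalClosure _ (Submodule.subset_span hv)

/-- control of a vector by finitely many generators -/
def Ctl (G : Set E) (φ : E → ℝ) (x : E) : Prop :=
  ∀ ε > 0, ∃ F : Finset E, (∀ y ∈ F, y ∈ G) ∧ ∃ δ > 0, ∀ n : ℕ,
    (∀ y ∈ F, |φ y - y n| < δ) → |φ x - x n| < ε

theorem ctl_closure {G : Set E} {φ : E → ℝ} (hφ : Contr φ) {x : E}
    (hx : x ∈ (Submodule.span ℝ G).topologicalClosure) : Ctl G φ x := by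
  classical
  have hspan : ∀ y ∈ Submodule.span ℝ G, Ctl G φ y := by
    intro y hy
    induction hy using Submodule.span_induction with
    | mem y hy =>
      intro ε hε
      exact ⟨{y}, by simpa using hy, ε, hε, fun n hn => hn y (by simp)⟩
    | zero =>
      intro ε hε
      refine ⟨∅, by simp, 1, one_pos, fun n _ => ?_⟩
      have h6 := hφ.2.1 0 0
      rw [zero_smul, zero_mul] at h6
      rw [h6]
      simpa using hε
    | add y z _ _ hy hz =>
      intro ε hε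
      obtain ⟨F1, hF1, δ1, hδ1, h1⟩ := hy (ε / 2) (by positivity)
      obtain ⟨F2, hF2, δ2, hδ2, h2⟩ := hz (ε / 2) (by positivity)
      refine ⟨F1 ∪ F2, ?_, min δ1 δ2, lt_min hδ1 hδ2, fun n hn => ?_⟩
      · intro w hw
        rcases Finset.mem_union.mp hw with h | h
        · exact hF1 w h
        · exact hF2 w h
      · have e1 := h1 n (fun w hw => (hn w (Finset.mem_union_left _ hw)).trans_le (min_le_left _ _))
        have e2 := h2 n (fun w hw => (hn w (Finset.mem_union_right _ hw)).trans_le (min_le_right _ _))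
        have e3 : φ (y + z) - (y + z) n = (φ y - y n) + (φ z - z n) := by
          rw [hφ.1]
          change φ y + φ z - (y n + z n) = _
          ring
        rw [e3]
        calc _ ≤ |φ y - y n| + |φ z - z n| := abs_add_le _ _
          _ < ε := by linarith
    | smul a y _ hy =>
      intro ε hε
      obtain ⟨F1, hF1, δ1, hδ1, h1⟩ := hy (ε / (|a| + 1)) (by positivity)
      refine ⟨F1, hF1, δ1, hδ1, fun n hn => ?_⟩
      have e1 := h1 n hn
      have e3 : φ (a • y) - (a • y) n = a * (φ y - y n) := by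
        rw [hφ.2.1]
        change a * φ y - a * y n = _
        ring
      rw [e3, abs_mul]
      calc |a| * |φ y - y n| ≤ (|a| + 1) * |φ y - y n| := by gcongr; linarith
        _ < (|a| + 1) * (ε / (|a| + 1)) := by gcongr
        _ = ε := by field_simp
  intro ε hε
  have hx' : x ∈ closure (Submodule.span ℝ G : Set E) := hx
  obtain ⟨y, hy, hxy⟩ := Metric.mem_closure_iff.mp hx' (ε / 3) (by positivity)
  obtain ⟨F, hF, δ, hδ, h1⟩ := hspan y hy (ε / 3) (by positivity)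
  refine ⟨F, hF, δ, hδ, fun n hn => ?_⟩
  have e1 := h1 n hn
  rw [dist_eq_norm] at hxy
  have e2 := hφ.2.2 (x - y)
  rw [hφ.sub] at e2
  have e3 := (x - y).norm_coe_le_norm n
  change |x n - y n| ≤ _ at e3
  have e : φ x - x n = (φ x - φ y) + (φ y - y n) - (x n - y n) := by ring
  rw [e]
  calc |(φ x - φ y) + (φ y - y n) - (x n - y n)|
      ≤ |(φ x - φ y) + (φ y - y n)| + |x n - y n| := abs_sub _ _
    _ ≤ |φ x - φ y| + |φ y - y n| + |x n - y n| := by gcongr; exact abs_add_le _ _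
    _ < ε := by linarith

/-- density statement for finite subsets of a set -/
def Dense' (α : W) (V : Set E) : Prop :=
  ∀ φ : E → ℝ, Contr φ → ∀ F : Finset E, (∀ x ∈ F, x ∈ V) → ∀ Q : Finset (W × Prob),
    (∀ c ∈ Q, α ≤ c.1) → ∀ q : W × Prob → ℚ, ∀ ε > 0, ∃ n : ℕ, (∀ c ∈ Q, uu n c = q c) ∧
      ∀ x ∈ F, |φ x - x n| < ε

theorem dense_closure {α : W} (h : Dense' α (GG α)) : Dense' α (XX α) := by
  classical
  intro φ hφ F hF Q hQ q ε hε
  have hctl : ∀ x ∈ F, ∃ F' : Finset E, (∀ y ∈ F', y ∈ GG α) ∧ ∃ δ > 0, ∀ n : ℕ,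
    (∀ y ∈ F', |φ y - y n| < δ) → |φ x - x n| < ε := by
    intro x hx
    have h1 := hF x hx
    rw [SetLike.mem_coe, XX_eq] at h1
    exact ctl_closure hφ h1 ε hε
  choose! F' hF' δ hδ hn using hctl
  obtain ⟨δ₀, hδ₀, hδ₀'⟩ : ∃ δ₀ > 0, ∀ x ∈ F, δ₀ ≤ δ x := by
    rcases F.eq_empty_or_nonempty with h0 | h0
    · exact ⟨1, one_pos, by simp [h0]⟩
    · refine ⟨F.inf' h0 δ, ?_, fun x hx => Finset.inf'_le _ hx⟩
      rw [gt_iff_lt, Finset.lt_inf'_iff]
      exact hδ
  obtain ⟨n, hn1, hn2⟩ := h φ hφ (F.biUnion F') (by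
    intro y hy
    obtain ⟨x, hx, hyx⟩ := Finset.mem_biUnion.mp hy
    exact hF' x hx y hyx) Q hQ q δ₀ hδ₀
  refine ⟨n, hn1, fun x hx => hn x hx n (fun y hy => ?_)⟩
  exact (hn2 y (Finset.mem_biUnion.mpr ⟨x, hx, hy⟩)).trans_le (hδ₀' x hx)

end Tower

end Pool.Agent.Lib.Gurarii
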