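import Mathlib

set_option autoImplicit false

namespace Pool.Agent.Lib.Gurarii

universe u v

/-- `X` is a strong Gurarii space: it is of universal disposition for the class of all
finite-dimensional (real) normed spaces, i.e. every isometric embedding `f` of a subspace `S` of a
finite-dimensional normed space `T` into `X` extends to an isometric embedding of `T` into `X`. -/
def IsStrongGurarii (X : Type v) [NormedAddCommGroup X] [NormedSpace ℝ X] : Prop :=
  ∀ (T : Type u) [NormedAddCommGroup T] [NormedSpace ℝ T] [FiniteDimensional ℝ T]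
    (S : Submodule ℝ T) (f : S →ₗᵢ[ℝ] X), ∃ g : T →ₗᵢ[ℝ] X, ∀ s : S, g s = f s

/-- `X` has a rotund renorming: there is an equivalent norm `N` on `X` (a seminorm with
`c * ‖x‖ ≤ N x ≤ C * ‖x‖` for some `c > 0`) such that `N (x + y) = 2 * N x = 2 * N y` implies
`x = y`. -/
def HasRotundRenorming (X : Type v) [NormedAddCommGroup X] [NormedSpace ℝ X] : Prop :=
  ∃ N : Seminorm ℝ X, (∃ c C : ℝ, 0 < c ∧ ∀ x, c * ‖x‖ ≤ N x ∧ N x ≤ C * ‖x‖) ∧
    ∀ x y, N (x + y) = 2 * N x → N (x + y) = 2 * N y → x = y

end Pool.Agent.Lib.Gurarii
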