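import Mathlib
import Pool.Agent.Lib.MP_5544e1_an.Constr

set_option autoImplicit false

namespace Pool.Agent.Lib.Gurarii

open Cardinal Filter Topology BoundedContinuousFunction

theorem Contr.scale {φ : E → ℝ} (hφ : Contr φ) {r : ℝ} (h0 : 0 ≤ r) (h1 : r ≤ 1) :
    Contr (fun x => r * φ x) ∧ ∀ x, |r * φ x| ≤ r * ‖x‖ := by
  have h3 : ∀ x, |r * φ x| ≤ r * ‖x‖ := by
    intro x
    rw [abs_mul, abs_of_nonneg h0]
    exact mul_le_mul_of_nonneg_left (hφ.2.2 x) h0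
  refine ⟨⟨fun x y => ?_, fun c x => ?_, fun x => (h3 x).trans ?_⟩, h3⟩
  · simp only [hφ.1]; ring
  · simp only [hφ.2.1]; ring
  · nlinarith [norm_nonneg x]

theorem pos_min_finset {V : Type*} (F : Finset V) (δ : V → ℝ) (h : ∀ x ∈ F, 0 < δ x) :
    ∃ δ₀ > 0, ∀ x ∈ F, δ₀ ≤ δ x := by
  rcases F.eq_empty_or_nonempty with h0 | h0
  · exact ⟨1, one_pos, by simp [h0]⟩
  · refine ⟨F.inf' h0 δ, ?_, fun x hx => Finset.inf'_le _ hx⟩
    rw [gt_iff_lt, Finset.lt_inf'_iff]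
    exact h

theorem dense_step {α : W} (IH : ∀ β < α, Dense' β (XX β)) : Dense' α (GG α) := by
  classical
  intro φ hφ F hF Q hQ q ε hε
  rcases F.eq_empty_or_nonempty with h0 | h0
  · obtain ⟨n, hn⟩ := uu_spec Q q
    exact ⟨n, hn, by simp [h0]⟩
  have hrep : ∀ v ∈ F, ∃ β : W, ∃ γ : Prob, β < α ∧ Valid γ ∧ (∀ i, γ.x i ∈ XX β) ∧
      v = tvec β γ := by
    intro v hv
    obtain ⟨β, hβ, γ, h1, h2, h3⟩ := hF v hv
    exact ⟨β, γ, hβ, h1, h2, h3⟩
  have : Nonempty W := ⟨α⟩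
  have : Nonempty Prob := ⟨⟨0, 0, 0⟩⟩
  choose! st γ hst hval hmem hv using hrep
  obtain ⟨v₀, hv₀, hmax⟩ := Finset.exists_max_image F st h0
  set β := st v₀ with hβ
  have hβα : β < α := hst v₀ hv₀
  -- scaling
  set M : ℝ := ∑ v ∈ F, ‖v‖ with hM
  have hM0 : 0 ≤ M := Finset.sum_nonneg (fun v _ => norm_nonneg v)
  have hMv : ∀ v ∈ F, ‖v‖ ≤ M := fun v hv =>
    Finset.single_le_sum (f := fun v : E => ‖v‖) (fun v _ => norm_nonneg v) hv
  obtain ⟨d, hd0, hd1, hd2⟩ : ∃ d : ℝ, 0 < d ∧ d ≤ 1 ∧ d * M < ε / 2 := by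
    refine ⟨min 1 (ε / (2 * (M + 1))), by positivity, min_le_left _ _, ?_⟩
    calc min 1 (ε / (2 * (M + 1))) * M ≤ (ε / (2 * (M + 1))) * M := by
          gcongr
          exact min_le_right _ _
      _ < (ε / (2 * (M + 1))) * (M + 1) := by
          gcongr
          linarith
      _ = ε / 2 := by field_simp
  obtain ⟨hφ', hφr⟩ := hφ.scale (r := 1 - d) (by linarith) (by linarith)
  have hclose : ∀ v ∈ F, |φ v - (1 - d) * φ v| < ε / 2 := by
    intro v hv
    have e : φ v - (1 - d) * φ v = d * φ v := by ring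
    rw [e, abs_mul, abs_of_pos hd0]
    calc d * |φ v| ≤ d * M := by
          gcongr
          exact (hφ.2.2 v).trans (hMv v hv)
      _ < ε / 2 := hd2
  -- key lemma
  have hkey : ∀ v ∈ F, st v = β → ∃ (Fv : Finset E) (δ : ℝ) (ρ : ℚ), 0 < δ ∧
      (∀ y ∈ Fv, y ∈ Submodule.span ℝ (Set.range (γ v).x)) ∧
      ∀ θ : E → ℝ, Contr θ → (∀ y ∈ Fv, |(1 - d) * φ y - θ y| < δ) →
        |clamp (aa (γ v) θ) (bb (γ v) θ) ρ - (1 - d) * φ v| ≤ ε / 4 := by
    intro v hvF hvβ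
    refine key_lemma (hval v hvF) hφ' (r := 1 - d) (by linarith) hφr (c := (1 - d) * φ v) ?_
      (by positivity)
    intro α'
    have e : (1 - d) * φ (lcomb (γ v).x α') + (1 - d) * φ v =
        (1 - d) * φ (lcomb (γ v).x α' + v) := by
      rw [hφ.1]; ring
    rw [e]
    refine (hφ'.2.2 _).trans ?_
    have h5 := tv_norm_le (hval v hvF) (fun n => (uu n (st v, γ v) : ℝ)) α'
    have h6 : v = tv (γ v) (fun n => (uu n (st v, γ v) : ℝ)) := hv v hvF
    rw [← h6] at h5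
    exact h5
  have hkey' : ∀ v ∈ F.filter (fun v => st v = β), ∃ (Fv : Finset E) (δ : ℝ) (ρ : ℚ), 0 < δ ∧
      (∀ y ∈ Fv, y ∈ Submodule.span ℝ (Set.range (γ v).x)) ∧
      ∀ θ : E → ℝ, Contr θ → (∀ y ∈ Fv, |(1 - d) * φ y - θ y| < δ) →
        |clamp (aa (γ v) θ) (bb (γ v) θ) ρ - (1 - d) * φ v| ≤ ε / 4 := by
    intro v hvF
    rw [Finset.mem_filter] at hvF
    exact hkey v hvF.1 hvF.2
  choose! Fv δ ρ hδ hFv hθ using hkey'
  obtain ⟨δ₀, hδ₀, hδ₀'⟩ := pos_min_finset _ δ hδ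
  let q' : W × Prob → ℚ := fun c => if c.1 = β then ρ (tvec β c.2) else q c
  obtain ⟨n, hn1, hn2⟩ := IH β hβα (fun x => (1 - d) * φ x) hφ'
    (F.filter (fun v => st v < β) ∪ (F.filter (fun v => st v = β)).biUnion Fv) (by
      intro y hy
      rcases Finset.mem_union.mp hy with hy | hy
      · rw [Finset.mem_filter] at hy
        refine GG_sub β ⟨st y, hy.2, γ y, hval y hy.1, hmem y hy.1, hv y hy.1⟩
      · obtain ⟨v, hvF, hyv⟩ := Finset.mem_biUnion.mp hy
        have h1 := hFv v hvF y hyv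
        rw [Finset.mem_filter] at hvF
        have h2 : Submodule.span ℝ (Set.range (γ v).x) ≤ XX β := by
          rw [Submodule.span_le]
          rintro _ ⟨i, rfl⟩
          have := hmem v hvF.1 i
          rwa [hvF.2] at this
        exact h2 h1)
    (Q ∪ (F.filter (fun v => st v = β)).image (fun v => (β, γ v))) (by
      intro c hc
      rcases Finset.mem_union.mp hc with hc | hc
      · exact hβα.le.trans (hQ c hc)
      · obtain ⟨v, -, rfl⟩ := Finset.mem_image.mp hc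
        exact le_refl _)
    q' (min (ε / 2) δ₀) (lt_min (by positivity) hδ₀)
  refine ⟨n, ?_, ?_⟩
  · intro c hc
    have h1 := hn1 c (Finset.mem_union_left _ hc)
    have h2 : c.1 ≠ β := (hβα.trans_le (hQ c hc)).ne'
    rw [h1]
    simp only [q', if_neg h2]
  · intro v hvF
    have h1 := hclose v hvF
    have h2 : |(1 - d) * φ v - v n| < ε / 2 := by
      rcases lt_or_eq_of_le (hmax v hvF) with h3 | h3
      · refine (hn2 v (Finset.mem_union_left _ ?_)).trans_le (min_le_left _ _)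
        rw [Finset.mem_filter]
        exact ⟨hvF, h3⟩
      · have hvf : v ∈ F.filter (fun v => st v = β) := by
          rw [Finset.mem_filter]
          exact ⟨hvF, h3⟩
        have h4 := hθ v hvf (fun x => x n) (contr_eval n) (fun y hy =>
          (hn2 y (Finset.mem_union_right _ (Finset.mem_biUnion.mpr ⟨v, hvf, hy⟩))).trans_le
            ((min_le_right _ _).trans (hδ₀' v hvf)))
        have h5 : v = tvec β (γ v) := by
          conv_lhs => rw [hv v hvF]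
          rw [h3]
        have h6 : uu n (β, γ v) = ρ v := by
          have h7 := hn1 (β, γ v) (Finset.mem_union_right _
            (Finset.mem_image.mpr ⟨v, hvf, rfl⟩))
          rw [h7]
          simp only [q', if_true]
          rw [← h5]
        have h8 : v n = clamp (aa (γ v) (fun x => x n)) (bb (γ v) (fun x => x n)) (ρ v) := by
          conv_lhs => rw [h5]
          unfold tvec
          rw [tv_apply (hval v hvF), h6]
        rw [← h8, abs_sub_comm] at h4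
        linarith
    calc |φ v - v n| = |(φ v - (1 - d) * φ v) + ((1 - d) * φ v - v n)| := by congr 1; ring
      _ ≤ |φ v - (1 - d) * φ v| + |(1 - d) * φ v - v n| := abs_add_le _ _
      _ < ε := by linarith

theorem dense_all (α : W) : Dense' α (XX α) := by
  induction α using WellFoundedLT.induction with
  | _ α IH => exact dense_closure (dense_step IH)

/-- transfer of functionals -/
theorem exists_transfer {V : Type} [NormedAddCommGroup V] [NormedSpace ℝ V] {k : ℕ}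
    (x : Fin k → V) {T : Type} [NormedAddCommGroup T]
    [NormedSpace ℝ T] (s : Fin k → T) (h : ∀ α, ‖lcomb s α‖ = ‖lcomb x α‖)
    (Θ : StrongDual ℝ T) (hΘ : ‖Θ‖ ≤ 1) :
    ∃ φ : StrongDual ℝ V, ‖φ‖ ≤ 1 ∧ ∀ α, φ (lcomb x α) = Θ (lcomb s α) := by
  let L : (Fin k → ℝ) →ₗ[ℝ] V :=
    { toFun := lcomb x, map_add' := lcomb_add x, map_smul' := lcomb_smul x }
  let Ls : (Fin k → ℝ) →ₗ[ℝ] T :=
    { toFun := lcomb s, map_add' := lcomb_add s, map_smul' := lcomb_smul s }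
  obtain ⟨R, hR⟩ := LinearMap.exists_rightInverse_of_surjective L.rangeRestrict
    (LinearMap.range_eq_top.mpr L.surjective_rangeRestrict)
  have hR' : ∀ y : LinearMap.range L, L (R y) = y := by
    intro y
    have := LinearMap.congr_fun hR y
    exact congrArg Subtype.val this
  have hn : ∀ y : LinearMap.range L, ‖Ls (R y)‖ = ‖y‖ := by
    intro y
    have h1 : ‖Ls (R y)‖ = ‖L (R y)‖ := h (R y)
    rw [h1, hR']
    rfl
  let f₀ : LinearMap.range L →ₗ[ℝ] ℝ := Θ.toLinearMap ∘ₗ Ls ∘ₗ R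
  have hf₀ : ∀ y, ‖f₀ y‖ ≤ 1 * ‖y‖ := by
    intro y
    calc ‖f₀ y‖ = ‖Θ (Ls (R y))‖ := rfl
      _ ≤ ‖Θ‖ * ‖Ls (R y)‖ := Θ.le_opNorm _
      _ ≤ 1 * ‖Ls (R y)‖ := by gcongr
      _ = 1 * ‖y‖ := by rw [hn]
  let f : StrongDual ℝ (LinearMap.range L) := f₀.mkContinuous 1 hf₀
  obtain ⟨g, hg1, hg2⟩ := exists_extension_norm_eq (LinearMap.range L) f
  refine ⟨g, ?_, ?_⟩
  · rw [hg2]
    exact LinearMap.mkContinuous_norm_le _ zero_le_one _
  · intro α
    have h1 := hg1 ⟨L α, ⟨α, rfl⟩⟩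
    have h2 : g (lcomb x α) = Θ (Ls (R ⟨L α, ⟨α, rfl⟩⟩)) := h1
    rw [h2]
    have h3 : Ls (R ⟨L α, ⟨α, rfl⟩⟩) = Ls α := by
      rw [← sub_eq_zero, ← map_sub, ← norm_eq_zero]
      have h4 : ‖Ls (R ⟨L α, ⟨α, rfl⟩⟩ - α)‖ = ‖L (R ⟨L α, ⟨α, rfl⟩⟩ - α)‖ := h _
      rw [h4, map_sub, hR', sub_self, norm_zero]
    rw [h3]
    rfl

theorem norm_tvec {β : W} {γ : Prob} (h : Valid γ) (hx : ∀ i, γ.x i ∈ XX β)
    (α : Fin γ.k → ℝ) : ‖lcomb γ.x α + tvec β γ‖ = γ.p α := by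
  classical
  refine le_antisymm (tv_norm_le h _ α) ?_
  obtain ⟨T, _, _, s, t, h1, h2⟩ := id h
  obtain ⟨Θ, hΘ1, hΘ2⟩ := exists_dual_vector'' ℝ (lcomb s α + t)
  obtain ⟨φ, hφ1, hφ2⟩ := exists_transfer γ.x s h1 Θ hΘ1
  have hp := h.nonneg α
  refine le_of_forall_pos_le_add (fun ε hε => ?_)
  obtain ⟨d, hd0, hd1, hd2⟩ : ∃ d : ℝ, 0 < d ∧ d ≤ 1 ∧ d * γ.p α ≤ ε / 3 := by
    refine ⟨min 1 (ε / (3 * (γ.p α + 1))), by positivity, min_le_left _ _, ?_⟩
    calc min 1 (ε / (3 * (γ.p α + 1))) * γ.p α ≤ (ε / (3 * (γ.p α + 1))) * (γ.p α + 1) := by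
          gcongr
          · exact min_le_right _ _
          · linarith
      _ = ε / 3 := by field_simp
  obtain ⟨hφ', hφr⟩ := (contr_dual hφ1).scale (r := 1 - d) (by linarith) (by linarith)
  have hΘ' : ∀ z : T, |Θ z| ≤ ‖z‖ := by
    intro z
    calc |Θ z| ≤ ‖Θ‖ * ‖z‖ := Θ.le_opNorm z
      _ ≤ 1 * ‖z‖ := by gcongr
      _ = ‖z‖ := one_mul _
  obtain ⟨F, δ, ρ, hδ, hF, hθ⟩ := key_lemma h hφ' (r := 1 - d) (by linarith) hφr
    (c := (1 - d) * Θ t) (by
      intro α'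
      have e : (1 - d) * φ (lcomb γ.x α') + (1 - d) * Θ t = (1 - d) * Θ (lcomb s α' + t) := by
        rw [hφ2, map_add]; ring
      rw [e, abs_mul, abs_of_nonneg (by linarith : 0 ≤ 1 - d), h2]
      have h3 := hΘ' (lcomb s α' + t)
      calc (1 - d) * |Θ (lcomb s α' + t)| ≤ 1 * ‖lcomb s α' + t‖ := by
            gcongr
            linarith
        _ = _ := one_mul _) (ε := ε / 3) (by positivity)
  have hspan : Submodule.span ℝ (Set.range γ.x) ≤ XX β := by
    rw [Submodule.span_le]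
    rintro _ ⟨i, rfl⟩
    exact hx i
  obtain ⟨n, hn1, hn2⟩ := dense_all β (fun x => (1 - d) * φ x) hφ'
    (insert (lcomb γ.x α) F) (by
      intro y hy
      rcases Finset.mem_insert.mp hy with rfl | hy
      · exact hspan (lcomb_mem_span _ _)
      · exact hspan (hF y hy)) {(β, γ)} (by
      intro c hc
      rw [Finset.mem_singleton.mp hc]) (fun _ => ρ) (min (ε / 3) δ) (lt_min (by positivity) hδ)
  have h3 := hn1 (β, γ) (Finset.mem_singleton_self _)
  have h4 := (hn2 (lcomb γ.x α) (Finset.mem_insert_self _ _)).trans_le (min_le_left _ _)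
  have h5 := hθ (fun x => x n) (contr_eval n) (fun y hy =>
    (hn2 y (Finset.mem_insert_of_mem hy)).trans_le (min_le_right _ _))
  have h6 : tvec β γ n = clamp (aa γ (fun x => x n)) (bb γ (fun x => x n)) ρ := by
    unfold tvec
    rw [tv_apply h, h3]
  rw [← h6] at h5
  have h7 : |(lcomb γ.x α + tvec β γ) n| ≤ ‖lcomb γ.x α + tvec β γ‖ :=
    (lcomb γ.x α + tvec β γ).norm_coe_le_norm n
  have h8 : (lcomb γ.x α + tvec β γ) n = (lcomb γ.x α) n + tvec β γ n := rfl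
  have h9 : (1 - d) * φ (lcomb γ.x α) + (1 - d) * Θ t = (1 - d) * γ.p α := by
    rw [hφ2, h2, ← mul_add, ← map_add, hΘ2]
    rfl
  rw [h8] at h7
  have h10 := (abs_le.mp h7).2
  have h11 := (abs_lt.mp h4).2
  have h12 := (abs_le.mp h5).1
  nlinarith

end Pool.Agent.Lib.Gurarii
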