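import Mathlib
import Pool.Agent.Lib.MP_5544e1_an.Dens

set_option autoImplicit false

namespace Pool.Agent.Lib.Gurarii

open Cardinal Filter Topology BoundedContinuousFunction

universe u v

/-- coordinate space without a norm -/
def Cn (n : ℕ) : Type := Fin n → ℝ

noncomputable instance (n : ℕ) : AddCommGroup (Cn n) := inferInstanceAs (AddCommGroup (Fin n → ℝ))
noncomputable instance (n : ℕ) : Module ℝ (Cn n) := inferInstanceAs (Module ℝ (Fin n → ℝ))

/-- a finite-dimensional configuration yields a valid extension problem -/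
theorem valid_of {T : Type u} [NormedAddCommGroup T] [NormedSpace ℝ T] [FiniteDimensional ℝ T]
    (γ : Prob) (s : Fin γ.k → T) (t : T) (h1 : ∀ α, ‖lcomb s α‖ = ‖lcomb γ.x α‖)
    (h2 : ∀ α, γ.p α = ‖lcomb s α + t‖) : Valid γ := by
  let n := Module.finrank ℝ T
  let e : T ≃ₗ[ℝ] Cn n := (Module.finBasis ℝ T).equivFun
  let i1 : NormedAddCommGroup (Cn n) :=
    NormedAddCommGroup.induced (Cn n) T e.symm.toLinearMap e.symm.injective
  let i2 : NormedSpace ℝ (Cn n) := NormedSpace.induced ℝ (Cn n) T e.symm.toLinearMap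
  have hn : ∀ y : Cn n, ‖y‖ = ‖e.symm y‖ := fun y => rfl
  have hl : ∀ α : Fin γ.k → ℝ, e.symm (lcomb (fun i => e (s i)) α) = lcomb s α := by
    intro α
    unfold lcomb
    rw [map_sum]
    refine Finset.sum_congr rfl (fun i _ => ?_)
    rw [map_smul, LinearEquiv.symm_apply_apply]
  refine ⟨Cn n, i1, i2, fun i => e (s i), e t, ?_, ?_⟩
  · intro α
    rw [hn, hl, h1]
  · intro α
    rw [hn, map_add, hl, LinearEquiv.symm_apply_apply, h2]

/-- the union of the tower -/
noncomputable def Xinf : Submodule ℝ E where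
  carrier := {v | ∃ α : W, v ∈ XX α}
  add_mem' := by
    rintro a b ⟨α, ha⟩ ⟨β, hb⟩
    exact ⟨max α β, (XX _).add_mem (XX_mono (le_max_left _ _) ha) (XX_mono (le_max_right _ _) hb)⟩
  zero_mem' := by
    obtain ⟨b, -⟩ := W_bdd (fun _ => Classical.choice (by
      have h : #W ≠ 0 := by
        rw [W_mk]
        exact (Cardinal.aleph_pos 1).ne'
      exact Cardinal.mk_ne_zero_iff.mp h))
    exact ⟨b, (XX b).zero_mem⟩
  smul_mem' := by
    rintro c a ⟨α, ha⟩
    exact ⟨α, (XX α).smul_mem c ha⟩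

theorem mem_Xinf {v : E} : v ∈ Xinf ↔ ∃ α : W, v ∈ XX α := Iff.rfl

theorem XX_closed (α : W) : IsClosed (XX α : Set E) := by
  rw [XX_eq]
  exact Submodule.isClosed_topologicalClosure _

theorem Xinf_closed : IsClosed (Xinf : Set E) := by
  rw [← isSeqClosed_iff_isClosed]
  intro s a hs ha
  choose α hα using hs
  obtain ⟨b, hb⟩ := W_bdd α
  exact ⟨b, (XX_closed b).mem_of_tendsto ha
    (Filter.Eventually.of_forall (fun n => XX_mono (hb n).le (hα n)))⟩

/-- finitely many vectors of the union lie in one stage -/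
theorem exists_stage {k : ℕ} (x : Fin k → E) (hx : ∀ i, x i ∈ Xinf) : ∃ β : W, ∀ i, x i ∈ XX β := by
  choose α hα using hx
  obtain ⟨w, -⟩ : ∃ α : W, (0 : E) ∈ XX α := Xinf.zero_mem
  obtain ⟨b, hb⟩ := W_bdd (fun n => if h : n < k then α ⟨n, h⟩ else w)
  refine ⟨b, fun i => ?_⟩
  have h1 := hb i
  rw [dif_pos i.2] at h1
  exact XX_mono h1.le (hα i)

/-- one-dimensional extension -/
theorem one_step {T : Type u} [NormedAddCommGroup T] [NormedSpace ℝ T] [FiniteDimensional ℝ T]
    (S : Submodule ℝ T) (f : S →ₗ[ℝ] E) (hf : ∀ s, ‖f s‖ = ‖s‖) (hfX : ∀ s, f s ∈ Xinf)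
    (t : T) : ∃ v ∈ Xinf, ∀ s : S, ‖f s + v‖ = ‖(s : T) + t‖ := by
  let k := Module.finrank ℝ S
  let b := Module.finBasis ℝ S
  let s : Fin k → T := fun i => (b i : T)
  let p : C(Fin k → ℝ, ℝ) := ⟨fun α => ‖lcomb s α + t‖, by
    unfold lcomb
    fun_prop⟩
  let γ : Prob := ⟨k, fun i => f (b i), p⟩
  have hlc : ∀ α : Fin k → ℝ, lcomb γ.x α = f (lcomb b α) := by
    intro α
    unfold lcomb
    rw [map_sum]
    refine Finset.sum_congr rfl (fun i _ => ?_)
    rw [map_smul]
  have hls : ∀ α : Fin k → ℝ, lcomb s α = ((lcomb b α : S) : T) := by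
    intro α
    unfold lcomb
    push_cast
    rfl
  have hval : Valid γ := by
    refine valid_of γ s t (fun α => ?_) (fun α => rfl)
    rw [hlc, hf, hls]
    rfl
  obtain ⟨β, hβ⟩ := exists_stage γ.x (fun i => hfX (b i))
  obtain ⟨β', hβ'⟩ := W_bdd (fun _ => β)
  refine ⟨tvec β γ, ⟨β', GG_sub β' ⟨β, hβ' 0, γ, hval, hβ, rfl⟩⟩, fun z => ?_⟩
  have h1 := norm_tvec hval hβ (fun i => b.repr z i)
  have h2 : lcomb b (fun i => b.repr z i) = z := b.sum_repr z
  rw [hlc, h2] at h1
  rw [h1]
  change ‖lcomb s _ + t‖ = _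
  rw [hls, h2]

theorem ext_all {T : Type u} [NormedAddCommGroup T] [NormedSpace ℝ T] [FiniteDimensional ℝ T]
    (m : ℕ) : ∀ (S : Submodule ℝ T) (f : S →ₗ[ℝ] E), (∀ s, ‖f s‖ = ‖s‖) → (∀ s, f s ∈ Xinf) →
      Module.finrank ℝ T ≤ Module.finrank ℝ S + m →
      ∃ g : T →ₗ[ℝ] E, (∀ t, ‖g t‖ = ‖t‖) ∧ (∀ t, g t ∈ Xinf) ∧ ∀ s : S, g s = f s := by
  induction m with
  | zero =>
    intro S f hf hfX hm
    have hS : S = ⊤ := by
      apply Submodule.eq_top_of_finrank_eq
      exact le_antisymm (Submodule.finrank_le S) (by simpa using hm)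
    subst hS
    refine ⟨f ∘ₗ (Submodule.topEquiv.symm : T ≃ₗ[ℝ] (⊤ : Submodule ℝ T)).toLinearMap, ?_, ?_, ?_⟩
    · intro t
      exact hf _
    · intro t
      exact hfX _
    · intro s
      rfl
  | succ m ih =>
    intro S f hf hfX hm
    by_cases hS : S = ⊤
    · refine ih S f hf hfX ?_
      subst hS
      rw [finrank_top]
      omega
    · obtain ⟨t, ht⟩ : ∃ t, t ∉ S := by
        by_contra hcon
        push Not at hcon
        exact hS (Submodule.eq_top_iff'.mpr hcon)
      obtain ⟨v, hv, hvn⟩ := one_step S f hf hfX t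
      let F : T →ₗ.[ℝ] E := ⟨S, f⟩
      let F' := F.supSpanSingleton t v ht
      have hdom : F'.domain = S ⊔ Submodule.span ℝ {t} := F.domain_supSpanSingleton t v ht
      have hF' : ∀ z : F'.domain, ∃ (s : S) (c : ℝ), (z : T) = s + c • t ∧ F' z = f s + c • v := by
        rintro ⟨z, hz⟩
        have hz' := hz
        rw [hdom] at hz'
        obtain ⟨s, hs, y, hy, rfl⟩ := Submodule.mem_sup.mp hz'
        obtain ⟨c, rfl⟩ := Submodule.mem_span_singleton.mp hy
        refine ⟨⟨s, hs⟩, c, rfl, ?_⟩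
        exact F.supSpanSingleton_apply_mk t v ht s hs c
      have hle : S ≤ F'.domain := by
        rw [hdom]
        exact le_sup_left
      obtain ⟨g, hg1, hg2, hg3⟩ := ih F'.domain F'.toFun (by
          intro z
          obtain ⟨s, c, h1, h2⟩ := hF' z
          have h3 : ‖z‖ = ‖(s : T) + c • t‖ := by
            rw [← h1]; rfl
          change ‖F' z‖ = _
          rw [h2, h3]
          by_cases hc : c = 0
          · rw [hc, zero_smul, zero_smul, add_zero, add_zero, hf]
            rfl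
          · have e1 : f s + c • v = c • (f (c⁻¹ • s) + v) := by
              rw [map_smul, smul_add, smul_smul, mul_inv_cancel₀ hc, one_smul]
            have e2 : (s : T) + c • t = c • (((c⁻¹ • s : S) : T) + t) := by
              rw [Submodule.coe_smul, smul_add, smul_smul, mul_inv_cancel₀ hc, one_smul]
            rw [e1, e2, norm_smul, norm_smul, hvn])
        (by
          intro z
          obtain ⟨s, c, h1, h2⟩ := hF' z
          change F' z ∈ _
          rw [h2]
          exact Xinf.add_mem (hfX s) (Xinf.smul_mem c hv))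
        (by
          have hlt : S < F'.domain := by
            refine lt_of_le_of_ne hle (fun h => ht ?_)
            rw [h, hdom]
            exact Submodule.mem_sup_right (Submodule.mem_span_singleton_self t)
          have := Submodule.finrank_lt_finrank_of_lt hlt
          omega)
      refine ⟨g, hg1, hg2, fun s => ?_⟩
      have h4 := hg3 ⟨s, hle s.2⟩
      have h5 : F' ⟨s, hle s.2⟩ = F s :=
        ((F.left_le_sup _ _).2 (x := s) (y := ⟨s, hle s.2⟩) rfl).symm
      rw [h4]
      exact h5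

end Pool.Agent.Lib.Gurarii
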