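import Mathlib
import Pool.Agent.Lib.MP_5544e1_an.Constr

set_option autoImplicit false

namespace Pool.Agent.Lib.Gurarii

open Filter Topology BoundedContinuousFunction

/-- the weighted Hilbert-space embedding -/
theorem memlp (x : E) : Memℓp (fun n : ℕ => (1 / 2 : ℝ) ^ n * x n) 2 := by
  apply memℓp_gen
  have h2 : (2 : ENNReal).toReal = 2 := by simp
  rw [h2]
  have hs : Summable (fun n : ℕ => ‖x‖ ^ 2 * (1 / 4 : ℝ) ^ n) :=
    (summable_geometric_of_lt_one (by norm_num) (by norm_num)).mul_left _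
  refine Summable.of_nonneg_of_le (fun n => by positivity) (fun n => ?_) hs
  have h3 : ‖(1 / 2 : ℝ) ^ n * x n‖ ≤ (1 / 2 : ℝ) ^ n * ‖x‖ := by
    rw [norm_mul, norm_pow]
    have : ‖(1 / 2 : ℝ)‖ = 1 / 2 := by norm_num
    rw [this]
    gcongr
    exact x.norm_coe_le_norm n
  calc ‖(1 / 2 : ℝ) ^ n * x n‖ ^ (2 : ℝ) = ‖(1 / 2 : ℝ) ^ n * x n‖ ^ 2 := by
        rw [← Real.rpow_natCast]; norm_num
    _ ≤ ((1 / 2 : ℝ) ^ n * ‖x‖) ^ 2 := by gcongr
    _ = ‖x‖ ^ 2 * (1 / 4 : ℝ) ^ n := by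
        rw [mul_pow, ← pow_mul, mul_comm n 2, pow_mul]
        norm_num
        ring

/-- the weighted Hilbert-space embedding -/
noncomputable def HT : E →ₗ[ℝ] lp (fun _ : ℕ => ℝ) 2 where
  toFun x := ⟨fun n : ℕ => (1 / 2 : ℝ) ^ n * x n, memlp x⟩
  map_add' x y := by
    ext n
    change (1 / 2 : ℝ) ^ n * (x n + y n) = (1 / 2 : ℝ) ^ n * x n + (1 / 2 : ℝ) ^ n * y n
    ring
  map_smul' c x := by
    ext n
    change (1 / 2 : ℝ) ^ n * (c * x n) = c * ((1 / 2 : ℝ) ^ n * x n)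
    ring

theorem HT_apply (x : E) (n : ℕ) : (HT x : ℕ → ℝ) n = (1 / 2 : ℝ) ^ n * x n := rfl

theorem HT_inj : Function.Injective HT := by
  intro x y h
  ext n
  have h1 : (HT x : ℕ → ℝ) n = (HT y : ℕ → ℝ) n := by rw [h]
  rw [HT_apply, HT_apply] at h1
  have h2 : ((1 / 2 : ℝ) ^ n) ≠ 0 := by positivity
  exact mul_left_cancel₀ h2 h1

theorem HT_bound (x : E) : ‖HT x‖ ≤ 2 * ‖x‖ := by
  have h2 : (2 : ENNReal).toReal = 2 := by simp
  have hn : 0 ≤ 2 * ‖x‖ := by positivity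
  have hp : 0 < (2 : ENNReal).toReal := by rw [h2]; norm_num
  refine lp.norm_le_of_tsum_le hp hn ?_
  rw [h2]
  have hs0 : Summable (fun n : ℕ => (1 / 4 : ℝ) ^ n) :=
    summable_geometric_of_lt_one (by norm_num) (by norm_num)
  have hs : Summable (fun n : ℕ => ‖x‖ ^ 2 * (1 / 4 : ℝ) ^ n) := hs0.mul_left _
  have hle : ∀ n : ℕ, ‖(HT x : ℕ → ℝ) n‖ ^ (2 : ℝ) ≤ ‖x‖ ^ 2 * (1 / 4 : ℝ) ^ n := by
    intro n
    rw [HT_apply]
    have h3 : ‖(1 / 2 : ℝ) ^ n * x n‖ ≤ (1 / 2 : ℝ) ^ n * ‖x‖ := by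
      rw [norm_mul, norm_pow]
      have : ‖(1 / 2 : ℝ)‖ = 1 / 2 := by norm_num
      rw [this]
      gcongr
      exact x.norm_coe_le_norm n
    calc ‖(1 / 2 : ℝ) ^ n * x n‖ ^ (2 : ℝ) = ‖(1 / 2 : ℝ) ^ n * x n‖ ^ 2 := by
          rw [← Real.rpow_natCast]; norm_num
      _ ≤ ((1 / 2 : ℝ) ^ n * ‖x‖) ^ 2 := by gcongr
      _ = ‖x‖ ^ 2 * (1 / 4 : ℝ) ^ n := by
          rw [mul_pow, ← pow_mul, mul_comm n 2, pow_mul]
          norm_num
          ring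
  have hs1 : Summable (fun n : ℕ => ‖(HT x : ℕ → ℝ) n‖ ^ (2 : ℝ)) :=
    Summable.of_nonneg_of_le (fun n => by positivity) hle hs
  calc ∑' n : ℕ, ‖(HT x : ℕ → ℝ) n‖ ^ (2 : ℝ) ≤ ∑' n : ℕ, ‖x‖ ^ 2 * (1 / 4 : ℝ) ^ n :=
        hs1.tsum_le_tsum hle hs
    _ = ‖x‖ ^ 2 * (4 / 3) := by
        rw [tsum_mul_left, tsum_geometric_of_lt_one (by norm_num) (by norm_num)]
        norm_num
    _ ≤ (2 * ‖x‖) ^ 2 := by nlinarith [sq_nonneg ‖x‖]
    _ = (2 * ‖x‖) ^ (2 : ℝ) := by rw [← Real.rpow_natCast]; norm_num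

/-- a rotund norm on bounded sequences -/
noncomputable def NN : Seminorm ℝ E := normSeminorm ℝ E + (normSeminorm ℝ _).comp HT

theorem NN_apply (x : E) : NN x = ‖x‖ + ‖HT x‖ := rfl

theorem NN_rotund {x y : E} (h1 : NN (x + y) = 2 * NN x) (h2 : NN x = NN y) : x = y := by
  rw [NN_apply, NN_apply] at *
  have h3 := norm_add_le x y
  have h4 := norm_add_le (HT x) (HT y)
  rw [map_add] at h1
  have h5 : ‖HT x + HT y‖ = ‖HT x‖ + ‖HT y‖ := by linarith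
  have h6 : SameRay ℝ (HT x) (HT y) := sameRay_iff_norm_add.mpr h5
  rcases eq_or_ne x 0 with hx | hx
  · subst hx
    simp only [map_zero, norm_zero, add_zero] at h2
    have : ‖y‖ ≤ 0 := by linarith [norm_nonneg (HT y)]
    exact (norm_le_zero_iff.mp this).symm
  rcases eq_or_ne y 0 with hy | hy
  · subst hy
    simp only [map_zero, norm_zero, add_zero] at h2
    have : ‖x‖ ≤ 0 := by linarith [norm_nonneg (HT x)]
    exact norm_le_zero_iff.mp this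
  have hx' : HT x ≠ 0 := fun h => hx (HT_inj (by rw [h, map_zero]))
  have hy' : HT y ≠ 0 := fun h => hy (HT_inj (by rw [h, map_zero]))
  obtain ⟨r, hr, hr'⟩ := h6.exists_pos_right hx' hy'
  have h7 : x = r • y := HT_inj (by rw [map_smul]; exact hr')
  rw [h7, map_smul, norm_smul, norm_smul, Real.norm_eq_abs, abs_of_pos hr] at h2
  have h8 : 0 < ‖y‖ + ‖HT y‖ := by
    have := norm_pos_iff.mpr hy
    positivity
  have h9 : r = 1 := by
    have : (r - 1) * (‖y‖ + ‖HT y‖) = 0 := by linarith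
    rcases mul_eq_zero.mp this with h | h
    · linarith
    · exact absurd h h8.ne'
  rw [h7, h9, one_smul]

theorem NN_equiv (x : E) : ‖x‖ ≤ NN x ∧ NN x ≤ 3 * ‖x‖ := by
  rw [NN_apply]
  have := HT_bound x
  constructor <;> linarith [norm_nonneg (HT x)]

end Pool.Agent.Lib.Gurarii
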